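import Pool.Agent.Y133.Half.PwDefs
import Pool.Agent.H914R2.ExtOp

/-!
# The Betti numbers of products
-/

open CategoryTheory AlgebraicGeometry TensorProduct

set_option autoImplicit false

universe u v

namespace Pool.Agent.N132.OS

open Module

section Alg

variable {K : Type*} [Field K] {V : Type*} [AddCommGroup V] [Module K V]

/-- The dimension of a homogeneous part, from a homogeneous basis. -/
theorem finrank_of_basis {gr : ℕ → Submodule K V} (h : DirectSum.IsInternal gr) {ι : Type*}
    [Fintype ι] (b : Basis ι K V) (deg : ι → ℕ) (hb : ∀ s, b s ∈ gr (deg s)) (m : ℕ) :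
    finrank K (gr m) = Fintype.card {s // deg s = m} := by
  classical
  have h1 : gr m = Submodule.span K (Set.range fun s : {s // deg s = m} => b s) := by
    apply le_antisymm
    · intro x hx
      have h2 := b.sum_repr x
      let _ : DirectSum.Decomposition gr := h.chooseDecomposition
      have h3 : (DirectSum.decompose gr x m : V) = x := DirectSum.decompose_of_mem_same gr hx
      rw [← h2, DirectSum.decompose_sum, DFinsupp.finsetSum_apply, Submodule.coe_sum] at h3
      rw [h2] at h3
      rw [← h3]
      refine Submodule.sum_mem _ fun s _ => ?_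
      have h4 : b.repr x s • b s ∈ gr (deg s) := Submodule.smul_mem _ _ (hb s)
      by_cases hs : deg s = m
      · rw [hs] at h4
        rw [DirectSum.decompose_of_mem_same gr h4]
        exact Submodule.smul_mem _ _ (Submodule.subset_span ⟨⟨s, hs⟩, rfl⟩)
      · rw [DirectSum.decompose_of_mem_ne gr h4 hs]
        exact Submodule.zero_mem _
    · rw [Submodule.span_le]
      rintro _ ⟨⟨s, hs⟩, rfl⟩
      have h4 := hb s
      rw [hs] at h4
      exact h4
  rw [h1]
  exact finrank_span_eq_card (b.linearIndependent.comp _ Subtype.val_injective)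

end Alg

open Pool.Agent.H914 Pool.Agent.H914.VarClass Pool.Agent.H914.VarClass.Obj
  Pool.Agent.H914.WeilCohomology

variable {k : Type u} [Field k] {𝒱 : VarClass k} {ops : CycleOps 𝒱}

/-- A homogeneous basis. -/
theorem exists_basis (W : WeilCohomology.{u, v} ops) (X : 𝒱.Obj) :
    ∃ (n : ℕ) (b : Basis (Fin n) W.K (W.H X)) (deg : Fin n → ℕ), ∀ s, b s ∈ W.gr X (deg s) := by
  classical
  let c : ∀ i : ℕ, Basis (Fin (finrank W.K (W.gr X i))) W.K (W.gr X i) := fun i =>
    Module.finBasis W.K (W.gr X i)
  let B := (W.isInternal X).collectedBasis c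
  have hfin : Finite (Σ i : ℕ, Fin (finrank W.K (W.gr X i))) := Module.Finite.finite_basis B
  have := Fintype.ofFinite (Σ i : ℕ, Fin (finrank W.K (W.gr X i)))
  let e := Fintype.equivFin (Σ i : ℕ, Fin (finrank W.K (W.gr X i)))
  refine ⟨_, B.reindex e, fun s => (e.symm s).1, fun s => ?_⟩
  rw [Basis.reindex_apply]
  exact (W.isInternal X).collectedBasis_mem c _

/-- **The Betti numbers of a product.** -/
theorem betti_prod (W : WeilCohomology.{u, v} ops) (X Y : 𝒱.Obj) (m : ℕ) :
    W.betti (X.prod Y) m =
      ∑ p ∈ Finset.HasAntidiagonal.antidiagonal m, W.betti X p.1 * W.betti Y p.2 := by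
  classical
  obtain ⟨n, b, deg, hb⟩ := exists_basis W X
  obtain ⟨n', b', deg', hb'⟩ := exists_basis W Y
  let B := (b.tensorProduct b').map (kappa W X Y)
  have hB : ∀ s : Fin n × Fin n', B s ∈ W.gr (X.prod Y) (deg s.1 + deg' s.2) := by
    intro s
    have h1 : B s = W.map (X.fst Y) (b s.1) * W.map (X.snd Y) (b' s.2) := by
      obtain ⟨s, t⟩ := s
      simp only [B, Basis.map_apply, Basis.tensorProduct_apply]
      simp [kappa, kunnethMap]
    rw [h1]
    exact W.mul_mem (W.map_mem _ (hb s.1)) (W.map_mem _ (hb' s.2))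
  have h1 := finrank_of_basis (W.isInternal (X.prod Y)) B (fun s => deg s.1 + deg' s.2) hB m
  have h2 := fun i => finrank_of_basis (W.isInternal X) b deg hb i
  have h3 := fun i => finrank_of_basis (W.isInternal Y) b' deg' hb' i
  simp only [WeilCohomology.betti]
  rw [h1]
  simp_rw [h2, h3, Fintype.card_subtype]
  have h4 : (Finset.univ.filter fun s : Fin n × Fin n' => deg s.1 + deg' s.2 = m) =
      (Finset.HasAntidiagonal.antidiagonal m).biUnion fun p =>
        (Finset.univ.filter fun s => deg s = p.1) ×ˢ (Finset.univ.filter fun s => deg' s = p.2) := by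
    ext ⟨s, t⟩
    simp only [Finset.mem_filter, Finset.mem_univ, true_and, Finset.mem_biUnion,
      Finset.HasAntidiagonal.mem_antidiagonal, Finset.mem_product]
    constructor
    · intro h
      exact ⟨(deg s, deg' t), h, rfl, rfl⟩
    · rintro ⟨p, hp, h5, h6⟩
      rw [h5, h6]
      exact hp
  rw [h4, Finset.card_biUnion]
  · exact Finset.sum_congr rfl fun p _ => Finset.card_product _ _
  · intro p _ q _ hpq
    rw [Function.onFun, Finset.disjoint_left]
    rintro ⟨s, t⟩ h5 h6
    simp only [Finset.mem_product, Finset.mem_filter, Finset.mem_univ, true_and] at h5 h6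
    exact hpq (Prod.ext (h5.1.symm.trans h6.1) (h5.2.symm.trans h6.2))

/-- Theories with the same Betti numbers of `X` have the same Betti numbers of the powers. -/
theorem betti_pw {W W' : WeilCohomology.{u, v} ops} {X : 𝒱.Obj}
    (h : ∀ i, W'.betti X i = W.betti X i) (n : ℕ) :
    ∀ i, W'.betti (Pool.Agent.Y133.Half.pw X n) i = W.betti (Pool.Agent.Y133.Half.pw X n) i := by
  induction n with
  | zero => exact h
  | succ n ih =>
    intro i
    have h1 := betti_prod W' (Pool.Agent.Y133.Half.pw X n) X i
    have h2 := betti_prod W (Pool.Agent.Y133.Half.pw X n) X i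
    simp only [ih, h] at h1
    exact h1.trans h2.symm

end Pool.Agent.N132.OS
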